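import Pool.Agent.Helper15.SI.Defs
import Pool.Agent.Helper12.SE.L5

/-! Project SI, leaf P5: symmetric strings in a residue class, small moduli. -/

namespace Pool.Agent.Helper15.SI

open Finset Filter Topology Pool.Agent.Helper10 Pool.Agent.Helper10.P4 Pool.Agent.Helper10.SQ

theorem p5_pal (l N : ℕ) (hl : 1 ≤ l) (h1 : N < 10 ^ l) (h2 : 10 ^ (l - 1) ≤ N)
    (h3 : ∀ i < l, N / 10 ^ i % 10 = N / 10 ^ (l - 1 - i) % 10) : IsPalD l N := by
  have hlen : (Nat.digits 10 N).length = l := by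
    have a1 := (Nat.digits_length_le_iff (by norm_num : 1 < 10) (k := l) N).mpr h1
    have a2 : ¬ (Nat.digits 10 N).length ≤ l - 1 := by
      rw [Nat.digits_length_le_iff (by norm_num : 1 < 10)]
      omega
    omega
  refine ⟨hlen, ?_⟩
  have htop : N / 10 ^ (l - 1) % 10 ≠ 0 := by
    have b1 : 1 ≤ N / 10 ^ (l - 1) := (Nat.one_le_div_iff (by positivity)).mpr h2
    have b2 : N / 10 ^ (l - 1) < 10 := by
      rw [Nat.div_lt_iff_lt_mul (by positivity), ← pow_succ', Nat.sub_add_cancel hl]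
      exact h1
    rw [Nat.mod_eq_of_lt b2]
    omega
  have e1 : Nat.digits 10 N = (List.range l).map (fun i => N / 10 ^ i % 10) := by
    conv_lhs => rw [eq_sum_digits N l hlen]
    exact digits_sum_range (fun i => N / 10 ^ i % 10) l (by omega)
      (fun i _ => Nat.mod_lt _ (by norm_num)) htop
  rw [e1]
  exact reverse_map_range (fun i => N / 10 ^ i % 10) l (fun i hi => (h3 i hi).symm)

/-- the palindrome which belongs to a symmetric string -/
def p5P (m X : ℕ) : ℕ := 10 ^ (2 * m + 4) + 1 + 100 * X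

theorem p5_div100 (m X : ℕ) : p5P m X / 100 = 10 ^ (2 * m + 2) + X := by
  unfold p5P
  have e : 10 ^ (2 * m + 4) = 100 * 10 ^ (2 * m + 2) := by
    rw [show 2 * m + 4 = 2 * m + 2 + 2 by ring, pow_add]
    ring
  rw [e]
  omega

theorem p5_digit (m X i : ℕ) (hi : i ≤ 2 * m + 1) :
    p5P m X / 10 ^ (i + 2) % 10 = X / 10 ^ i % 10 := by
  have e : p5P m X / 10 ^ (i + 2) = p5P m X / 100 / 10 ^ i := by
    rw [Nat.div_div_eq_div_mul, pow_add]
    congr 1
    ring
  rw [e, p5_div100]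
  have e2 : 10 ^ (2 * m + 2) = 10 ^ i * (10 * 10 ^ (2 * m + 1 - i)) := by
    rw [← pow_succ', ← pow_add]
    congr 1
    omega
  rw [e2, Nat.mul_add_div (by positivity)]
  omega

theorem p5_digit0 (m X : ℕ) : p5P m X % 10 = 1 := by
  unfold p5P
  have e : 10 ^ (2 * m + 4) = 10 * 10 ^ (2 * m + 3) := by
    rw [← pow_succ']
  rw [e]
  omega

theorem p5_digit1 (m X : ℕ) : p5P m X / 10 % 10 = 0 := by
  unfold p5P
  have e : 10 ^ (2 * m + 4) = 100 * 10 ^ (2 * m + 2) := by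
    rw [show 2 * m + 4 = 2 * m + 2 + 2 by ring, pow_add]
    ring
  rw [e]
  omega

theorem p5_top (m X : ℕ) (hX : X < 10 ^ (2 * m + 1)) : p5P m X / 10 ^ (2 * m + 4) % 10 = 1 := by
  have e : p5P m X / 10 ^ (2 * m + 4) = 1 := by
    rw [show 2 * m + 4 = 2 + (2 * m + 2) by ring, pow_add, ← Nat.div_div_eq_div_mul,
      show (10 : ℕ) ^ 2 = 100 by norm_num, p5_div100]
    apply Nat.div_eq_of_lt_le
    · omega
    · have : 10 ^ (2 * m + 1) ≤ 10 ^ (2 * m + 2) := Nat.pow_le_pow_right (by norm_num) (by omega)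
      omega
  rw [e]

theorem p5_isPal (m X : ℕ) (h : Sy (2 * m + 1) X) : IsPalD (2 * (m + 2) + 1) (p5P m X) := by
  obtain ⟨hX, hs⟩ := h
  have e3 : 10 ^ (2 * m + 5) = 10 * 10 ^ (2 * m + 4) := by
    rw [← pow_succ']
  have e4 : 10 ^ (2 * m + 4) = 1000 * 10 ^ (2 * m + 1) := by
    rw [show 2 * m + 4 = 2 * m + 1 + 3 by ring, pow_add]
    ring
  have hlt : X < 10 ^ (2 * m + 1) := hX
  apply p5_pal
  · omega
  · rw [show 2 * (m + 2) + 1 = 2 * m + 5 by ring, e3]
    unfold p5P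
    rw [e4]
    omega
  · rw [show 2 * (m + 2) + 1 - 1 = 2 * m + 4 by omega]
    unfold p5P
    omega
  · intro i hi
    rw [show 2 * (m + 2) + 1 - 1 - i = 2 * m + 4 - i by omega]
    have hz : X / 10 ^ (2 * m + 1) = 0 := Nat.div_eq_of_lt hX
    rcases Nat.lt_or_ge i 2 with h2 | h2
    · interval_cases i
      · rw [pow_zero, Nat.div_one, p5_digit0, Nat.sub_zero, p5_top m X hX]
      · rw [pow_one, p5_digit1, show 2 * m + 4 - 1 = 2 * m + 1 + 2 by omega,
          p5_digit m X (2 * m + 1) le_rfl, hz]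
    · rcases Nat.lt_or_ge i (2 * m + 3) with h3 | h3
      · obtain ⟨j, rfl⟩ : ∃ j, i = j + 2 := ⟨i - 2, by omega⟩
        rw [p5_digit m X j (by omega), show 2 * m + 4 - (j + 2) = 2 * m - j + 2 by omega,
          p5_digit m X (2 * m - j) (by omega), hs j (by omega)]
        congr 3
      · rcases Nat.lt_or_ge i (2 * m + 4) with h4 | h4
        · have : i = 2 * m + 1 + 2 := by omega
          subst this
          rw [p5_digit m X (2 * m + 1) le_rfl, hz,
            show 2 * m + 4 - (2 * m + 1 + 2) = 1 by omega, pow_one, p5_digit1]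
        · have : i = 2 * m + 4 := by omega
          subst this
          rw [p5_top m X hX, Nat.sub_self, pow_zero, Nat.div_one, p5_digit0]

theorem p5_surj (m P : ℕ) (hP : IsPalD (2 * (m + 2) + 1) P) (h0 : P % 10 = 1)
    (h1 : P / 10 % 10 = 0) : ∃ X, Sy (2 * m + 1) X ∧ P = p5P m X := by
  have hsym := digit_symm P (2 * (m + 2) + 1) hP.1 hP.2
  have hlt : P < 10 ^ (2 * (m + 2) + 1) := c1_isPal_lt _ _ hP
  have s0 := hsym 0 (by omega)
  have s1 := hsym 1 (by omega)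
  rw [show 2 * (m + 2) + 1 - 1 - 0 = 2 * m + 4 by omega, pow_zero, Nat.div_one, h0] at s0
  rw [show 2 * (m + 2) + 1 - 1 - 1 = 2 * m + 3 by omega, pow_one, h1] at s1
  have t0 : P / 10 ^ (2 * m + 4) = 1 := by
    have : P / 10 ^ (2 * m + 4) < 10 := by
      rw [Nat.div_lt_iff_lt_mul (by positivity), ← pow_succ']
      exact hlt
    rw [Nat.mod_eq_of_lt this] at s0
    exact s0
  have t1 : P / 10 ^ (2 * m + 3) = 10 := by
    have : P / 10 ^ (2 * m + 4) = P / 10 ^ (2 * m + 3) / 10 := by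
      rw [Nat.div_div_eq_div_mul, ← pow_succ]
    rw [this] at t0
    omega
  set Y := P / 100 with hY
  have hPY : P = 100 * Y + 1 := by omega
  have hY1 : Y / 10 ^ (2 * m + 1) = 10 := by
    rw [hY, Nat.div_div_eq_div_mul, show 100 * 10 ^ (2 * m + 1) = 10 ^ (2 * m + 3) by
      rw [show 2 * m + 3 = 2 + (2 * m + 1) by ring, pow_add 10 2 (2 * m + 1)]; norm_num]
    exact t1
  set X := Y % 10 ^ (2 * m + 1) with hX
  have hXlt : X < 10 ^ (2 * m + 1) := Nat.mod_lt _ (by positivity)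
  have hYX : Y = 10 ^ (2 * m + 2) + X := by
    have := Nat.div_add_mod Y (10 ^ (2 * m + 1))
    rw [hY1] at this
    rw [show 10 ^ (2 * m + 2) = 10 ^ (2 * m + 1) * 10 by rw [← pow_succ]]
    omega
  have hPX : P = p5P m X := by
    unfold p5P
    rw [hPY, hYX, show 10 ^ (2 * m + 4) = 100 * 10 ^ (2 * m + 2) by
      rw [show 2 * m + 4 = 2 + (2 * m + 2) by ring, pow_add 10 2 (2 * m + 2)]; norm_num]
    ring
  refine ⟨X, ⟨hXlt, fun i hi => ?_⟩, hPX⟩
  have a1 := p5_digit m X i (by omega)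
  have a2 := p5_digit m X (2 * m + 1 - 1 - i) (by omega)
  rw [← a1, ← a2, ← hPX]
  have := hsym (i + 2) (by omega)
  rw [← this]
  congr 3
  omega

theorem p5_card (m M b : ℕ) (hM : M.Coprime 10) :
    sc m M b = ((Pal (m + 2)).filter (fun P => P % 10 = 1 ∧ P / 10 % 10 = 0 ∧
      P ≡ 10 ^ (2 * m + 4) + 1 + 100 * b [MOD M])).card := by
  classical
  have hM100 : M.Coprime 100 := by
    have := Nat.Coprime.pow_right 2 hM
    norm_num at this
    exact this
  unfold sc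
  refine Finset.card_bij (fun X _ => p5P m X) ?_ ?_ ?_
  · intro X hX
    unfold SS at hX
    rw [Finset.mem_filter, Finset.mem_filter] at hX
    rw [Finset.mem_filter, c1_mem_Pal]
    refine ⟨p5_isPal m X hX.1.2, p5_digit0 m X, p5_digit1 m X, ?_⟩
    unfold p5P
    exact Nat.ModEq.add_left _ (Nat.ModEq.mul_left _ hX.2)
  · intro X _ Y _ h
    unfold p5P at h
    omega
  · intro P hP
    rw [Finset.mem_filter, c1_mem_Pal] at hP
    obtain ⟨hp, h0, h1, h2⟩ := hP
    obtain ⟨X, hX, rfl⟩ := p5_surj m P hp h0 h1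
    refine ⟨X, ?_, rfl⟩
    unfold SS
    rw [Finset.mem_filter, Finset.mem_filter, Finset.mem_range]
    refine ⟨⟨hX.1, hX⟩, ?_⟩
    unfold p5P at h2
    have h3 : 100 * X ≡ 100 * b [MOD M] := Nat.ModEq.add_left_cancel' _ h2
    exact Nat.ModEq.cancel_left_of_coprime hM100 h3

theorem small_S : ∃ ρ : ℝ, 0 < ρ ∧ ρ < 1 ∧ ∀ m M k b : ℕ, M.Coprime 10 → M ≤ 10 ^ k →
    |((sc m M b : ℕ) : ℝ) - 10 ^ (m + 1) / M| ≤ 10 ^ (m + 2) * (M * ρ ^ (m / (2 * k + 3))) := by
  obtain ⟨ρ, hρ0, hρ1, h⟩ := Pool.Agent.Helper12.SE.L5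
  refine ⟨ρ, hρ0, hρ1, fun m M k b hM hMk => ?_⟩
  have h1 := h (m + 2) M k 1 0 (10 ^ (2 * m + 4) + 1 + 100 * b) hM hMk le_rfl (by norm_num)
    (by norm_num) (by omega)
  rw [← p5_card m M b hM, Nat.add_sub_cancel] at h1
  have e : (10 : ℝ) ^ (m + 2) / (10 * M) = 10 ^ (m + 1) / M := by
    rw [show (10 : ℝ) ^ (m + 2) = 10 * 10 ^ (m + 1) by ring]
    exact mul_div_mul_left _ _ (by norm_num)
  rw [e] at h1
  exact h1

end Pool.Agent.Helper15.SI
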