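import Pool.Agent.Helper94.SI.P4
import Pool.Agent.Helper21.SI.P2
import Pool.Agent.Helper29.SI.P1a
import Pool.Agent.Helper29.SI.P1b
import Pool.Agent.Helper32.SI.P3

/-! Project SI: square moduli for symmetric strings, no hypothesis left. -/

namespace Pool.Agent.Helper15.SI

open Finset Pool.Agent.Helper10.SQ

theorem sc_succ (m q b b' : ℕ) (hq : q.Coprime 10) (hb : 10 * b' ≡ b [MOD q]) :
    sc (m + 1) q b = cl (m + 1) q b + sc m q b' :=
  sc_succ_of (fun l c N hc => sy_step l c N hc) (fun l N hl => isPalD_iff l N hl) m q b b' hq hb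

theorem level_S_all (ε : ℝ) (hε : 0 < ε) :
    ∃ c : ℝ, 0 < c ∧ ∃ m0 : ℕ, ∀ m : ℕ, m0 ≤ m → ∀ D : ℕ,
      (D : ℝ) ≤ (10 : ℝ) ^ ((1 - ε) * (m : ℝ)) → ∀ b : ℕ → ℕ,
      ES m D b ≤ (10 : ℝ) ^ m * Real.exp (-(c * Real.sqrt m)) :=
  level_S_of sc_zero sc_succ crude (fun ε hε => Pool.Agent.Helper36.PX.sqB2E ε hε) ε hε

end Pool.Agent.Helper15.SI
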