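import Pool.Agent.Helper15.SI.P7
import Pool.Agent.Helper94.SI.Level

/-! Project SI: the number of palindromes with a prefix, not divisible by 4 and 25. -/

namespace Pool.Agent.Helper15.SI

open Finset Pool.Agent.Helper10.SQ Pool.Agent.Helper10.P4

theorem hpal_all : HPal := fun l N hl => isPalD_iff l N hl

theorem hpre_all : HPre := fun l k w hw => sy_prefix l k w hw

theorem hlast_all : HLast := fun l k w N hk hw hN h => last_two l k w N hk hw hN h

theorem card_SS (m : ℕ) : (SS (2 * m + 1)).card = 10 ^ (m + 1) :=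
  card_SS_of (fun l c N hc => sy_step l c N hc) m

theorem card_PW (n k w : ℕ) (hk : 1 ≤ k) (hkn : k ≤ n) (hw1 : 10 ^ (k - 1) ≤ w)
    (hw : w < 10 ^ k) : (PW n k w).card = 10 ^ (n - k + 1) := by
  obtain ⟨b, hb⟩ := pw_count hpal_all hpre_all n k w hk hkn hw1 hw 1 0 (Nat.coprime_one_left 10)
  have h1 : (PW n k w).filter (fun N => N ≡ 0 [MOD 1]) = PW n k w :=
    Finset.filter_true_of_mem fun N _ => Nat.modEq_one
  have h2 : sc (n - k) 1 b = (SS (2 * (n - k) + 1)).card := by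
    unfold sc
    rw [Finset.filter_true_of_mem fun N _ => Nat.modEq_one]
  rw [h1, h2, card_SS] at hb
  exact hb

theorem card_good (n k w : ℕ) (hk : 2 ≤ k) (hkn : k ≤ n) (hw1 : 10 ^ (k - 1) ≤ w)
    (hw : w < 10 ^ k) : ((PW n k w).filter (fun N => ¬ 4 ∣ N ∧ ¬ 25 ∣ N)).card =
      if 4 ∣ lastTwo k w ∨ 25 ∣ lastTwo k w then 0 else 10 ^ (n - k + 1) := by
  have h1 : ∀ N ∈ PW n k w, N % 100 = lastTwo k w := by
    intro N hN
    rw [mem_PW hpal_all n k w (by omega) hkn hw1] at hN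
    exact hlast_all _ k w N hk hw hN.1 hN.2
  have h2 : ∀ N ∈ PW n k w, (4 ∣ N ↔ 4 ∣ lastTwo k w) ∧ (25 ∣ N ↔ 25 ∣ lastTwo k w) := by
    intro N hN
    have := h1 N hN
    constructor <;> omega
  split_ifs with h
  · rw [Finset.card_eq_zero, Finset.filter_eq_empty_iff]
    intro N hN hg
    obtain ⟨a1, a2⟩ := h2 N hN
    rcases h with h | h
    · exact hg.1 (a1.2 h)
    · exact hg.2 (a2.2 h)
  · push Not at h
    rw [Finset.filter_true_of_mem, card_PW n k w (by omega) hkn hw1 hw]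
    intro N hN
    obtain ⟨a1, a2⟩ := h2 N hN
    exact ⟨fun h' => h.1 (a1.1 h'), fun h' => h.2 (a2.1 h')⟩

end Pool.Agent.Helper15.SI
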