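import Pool.Agent.Helper15.SI.Defs
import Pool.Agent.Helper36.PX.B2E

/-! Project SI, leaf P4: square moduli for symmetric strings. -/

namespace Pool.Agent.Helper15.SI

open Finset Filter Topology Pool.Agent.Helper10 Pool.Agent.Helper10.P4 Pool.Agent.Helper10.SQ

theorem p4_inv (q b : ℕ) (hq : q.Coprime 10) : ∃ b' : ℕ, 10 * b' ≡ b [MOD q] := by
  have hq0 : q ≠ 0 := by
    rintro rfl
    norm_num at hq
  obtain ⟨w, -, hw⟩ := Nat.exists_mul_mod_eq_of_coprime b hq.symm hq0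
  exact ⟨w, hw⟩

theorem p4_mem {D d : ℕ} (hd : d ∈ Mo D) : 1 ≤ d ∧ d ≤ D ∧ (d ^ 2).Coprime 10 := by
  unfold Mo at hd
  rw [Finset.mem_filter, Finset.mem_Icc] at hd
  exact ⟨hd.1.1, hd.1.2, Nat.Coprime.pow_left 2 hd.2⟩

theorem p4_card (D : ℕ) : (Mo D).card ≤ D := by
  unfold Mo
  refine (Finset.card_filter_le _ _).trans ?_
  rw [Nat.card_Icc]
  omega

theorem p4_zero (h0 : ∀ q b : ℕ, sc 0 q b ≤ 10) (D : ℕ) (b : ℕ → ℕ) : ES 0 D b ≤ 10 * D := by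
  unfold ES
  have h1 : ∀ d ∈ Mo D, |((sc 0 (d ^ 2) (b d) : ℕ) : ℝ) - 10 ^ (0 + 1) / ((d : ℝ) ^ 2)| ≤ 10 := by
    intro d hd
    obtain ⟨h1, -, -⟩ := p4_mem hd
    have a1 : ((sc 0 (d ^ 2) (b d) : ℕ) : ℝ) ≤ 10 := by exact_mod_cast h0 _ _
    have a2 : (0 : ℝ) ≤ ((sc 0 (d ^ 2) (b d) : ℕ) : ℝ) := Nat.cast_nonneg _
    have a3 : (1 : ℝ) ≤ (d : ℝ) ^ 2 := by
      have : (1 : ℝ) ≤ d := by exact_mod_cast h1
      nlinarith
    have a4 : (10 : ℝ) ^ (0 + 1) / ((d : ℝ) ^ 2) ≤ 10 := by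
      rw [div_le_iff₀ (by linarith)]
      norm_num
      linarith
    have a5 : (0 : ℝ) ≤ (10 : ℝ) ^ (0 + 1) / ((d : ℝ) ^ 2) := by positivity
    rw [abs_le]
    constructor <;> linarith
  refine (Finset.sum_le_card_nsmul _ _ _ h1).trans ?_
  rw [nsmul_eq_mul]
  have : ((Mo D).card : ℝ) ≤ D := by exact_mod_cast p4_card D
  linarith

theorem p4_succ (h1 : ∀ m q b b' : ℕ, q.Coprime 10 → 10 * b' ≡ b [MOD q] →
    sc (m + 1) q b = cl (m + 1) q b + sc m q b') (m D : ℕ) (b : ℕ → ℕ) :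
    ∃ b' : ℕ → ℕ, ES (m + 1) D b ≤ EP (m + 1) D b + ES m D b' := by
  have h2 : ∀ d : ℕ, ∃ b' : ℕ, (d ^ 2).Coprime 10 → 10 * b' ≡ b d [MOD (d ^ 2)] := by
    intro d
    by_cases h : (d ^ 2).Coprime 10
    · obtain ⟨w, hw⟩ := p4_inv (d ^ 2) (b d) h
      exact ⟨w, fun _ => hw⟩
    · exact ⟨0, fun h' => absurd h' h⟩
  choose b' hb' using h2
  refine ⟨b', ?_⟩
  unfold ES EP
  rw [← Finset.sum_add_distrib]
  apply Finset.sum_le_sum
  intro d hd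
  obtain ⟨hd1, -, hd2⟩ := p4_mem hd
  rw [h1 m (d ^ 2) (b d) (b' d) hd2 (hb' d hd2)]
  have hd0 : (d : ℝ) ^ 2 ≠ 0 := by
    have : (1 : ℝ) ≤ d := by exact_mod_cast hd1
    positivity
  have e : (((cl (m + 1) (d ^ 2) (b d) + sc m (d ^ 2) (b' d) : ℕ) : ℝ)) -
      10 ^ (m + 1 + 1) / ((d : ℝ) ^ 2) =
      (((cl (m + 1) (d ^ 2) (b d) : ℕ) : ℝ) - 9 * 10 ^ (m + 1) / ((d : ℝ) ^ 2)) +
      (((sc m (d ^ 2) (b' d) : ℕ) : ℝ) - 10 ^ (m + 1) / ((d : ℝ) ^ 2)) := by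
    push_cast
    field_simp
    ring
  rw [e]
  exact abs_add_le _ _

theorem p4_sum (h0 : ∀ q b : ℕ, sc 0 q b ≤ 10)
    (h1 : ∀ m q b b' : ℕ, q.Coprime 10 → 10 * b' ≡ b [MOD q] →
      sc (m + 1) q b = cl (m + 1) q b + sc m q b') (D M : ℕ) (F : ℕ → ℝ)
    (hF : ∀ j : ℕ, 1 ≤ j → j ≤ M → ∀ a : ℕ → ℕ, EP j D a ≤ F j) :
    ∀ m ≤ M, ∀ b : ℕ → ℕ, ES m D b ≤ 10 * D + ∑ j ∈ Icc 1 m, F j := by
  intro m
  induction m with
  | zero =>
    intro _ b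
    simpa using p4_zero h0 D b
  | succ m ih =>
    intro hm b
    obtain ⟨b', hb'⟩ := p4_succ h1 m D b
    have e1 := ih (by omega) b'
    have e2 := hF (m + 1) (by omega) hm b
    rw [Finset.sum_Icc_succ_top (by omega)]
    linarith

theorem p4_geom (m : ℕ) : ∑ j ∈ Icc 1 m, (10 : ℝ) ^ j ≤ 2 * 10 ^ m := by
  induction m with
  | zero => simp
  | succ m ih =>
    rw [Finset.sum_Icc_succ_top (by omega), pow_succ]
    have : (0 : ℝ) < 10 ^ m := by positivity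
    linarith

theorem level_S_of (h0 : ∀ q b : ℕ, sc 0 q b ≤ 10)
    (h1 : ∀ m q b b' : ℕ, q.Coprime 10 → 10 * b' ≡ b [MOD q] →
      sc (m + 1) q b = cl (m + 1) q b + sc m q b')
    (hcr : ∀ ε : ℝ, 0 < ε → ε ≤ 1 → ∃ C : ℝ, 0 < C ∧ ∀ (j D : ℕ) (a : ℕ → ℕ),
      EP j D a ≤ C * (10 : ℝ) ^ ((1 + ε) * (j : ℝ)) + D)
    (hP : ∀ ε : ℝ, 0 < ε → ∃ c : ℝ, 0 < c ∧ ∃ n0 : ℕ, ∀ n : ℕ, n0 ≤ n → ∀ D : ℕ,
      (D : ℝ) ≤ (10 : ℝ) ^ ((1 - ε) * (n : ℝ)) → ∀ a : ℕ → ℕ,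
      EP n D a ≤ (10 : ℝ) ^ n * Real.exp (-(c * Real.sqrt n))) (ε : ℝ) (hε : 0 < ε) :
    ∃ c : ℝ, 0 < c ∧ ∃ m0 : ℕ, ∀ m : ℕ, m0 ≤ m → ∀ D : ℕ,
      (D : ℝ) ≤ (10 : ℝ) ^ ((1 - ε) * (m : ℝ)) → ∀ b : ℕ → ℕ,
      ES m D b ≤ (10 : ℝ) ^ m * Real.exp (-(c * Real.sqrt m)) := by
  obtain ⟨δ, hδ, hδ1, hδε⟩ : ∃ δ : ℝ, 0 < δ ∧ δ ≤ 1 / 4 ∧ 4 * δ ≤ ε :=
    ⟨min ε 1 / 4, by positivity, by have := min_le_right ε 1; linarith,
      by have := min_le_left ε 1; linarith⟩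
  obtain ⟨c, hc, n0, hn⟩ := hP δ hδ
  obtain ⟨C, hC, hcr'⟩ := hcr (δ / 2) (by positivity) (by linarith)
  obtain ⟨n1, hn1⟩ := Pool.Agent.Helper36.PX.b2_growthE 1 (2 * (C + 11)) (δ / 2) (c / 4)
    (by positivity) (by positivity)
  obtain ⟨n2, hn2⟩ := exists_nat_gt ((12 / c) ^ 2)
  refine ⟨c / 4, by positivity, 2 * n0 + n1 + n2 + 1, fun m hm D hD b => ?_⟩
  have hmR : ((2 * n0 + n1 + n2 + 1 : ℕ) : ℝ) ≤ (m : ℝ) := by exact_mod_cast hm
  push_cast at hmR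
  have hn0R : (0 : ℝ) ≤ (n0 : ℝ) := Nat.cast_nonneg _
  have hn1R : (0 : ℝ) ≤ (n1 : ℝ) := Nat.cast_nonneg _
  have hn2R : (0 : ℝ) ≤ (n2 : ℝ) := Nat.cast_nonneg _
  have hm1 : (1 : ℝ) ≤ m := by linarith
  have hm0 : (0 : ℝ) ≤ m := by linarith
  set G : ℝ := Real.exp (c / 4 * Real.sqrt m) with hG
  set X : ℝ := Real.exp (-(c / 4 * Real.sqrt m)) with hX
  have hGX : G * X = 1 := by
    rw [hG, hX, ← Real.exp_add, add_neg_cancel, Real.exp_zero]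
  have hG0 : 0 < G := Real.exp_pos _
  have hX0 : 0 < X := Real.exp_pos _
  have hG4 : 4 ≤ G := by
    have a1 : 12 / c ≤ Real.sqrt m := by
      apply Real.le_sqrt_of_sq_le
      linarith
    have a2 : 3 ≤ c / 4 * Real.sqrt m := by
      have : c / 4 * (12 / c) ≤ c / 4 * Real.sqrt m :=
        mul_le_mul_of_nonneg_left a1 (by positivity)
      have e : c / 4 * (12 / c) = 3 := by field_simp; norm_num
      linarith
    have a3 := Real.add_one_le_exp (c / 4 * Real.sqrt m)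
    linarith
  set P : ℝ := (10 : ℝ) ^ (δ / 2 * (m : ℝ)) with hPd
  set Q : ℝ := (10 : ℝ) ^ ((1 - δ / 2) * (m : ℝ)) with hQd
  have hP0 : 0 < P := by positivity
  have hQ0 : 0 < Q := by positivity
  have hPQ : P * Q = (10 : ℝ) ^ m := by
    rw [hPd, hQd, ← Real.rpow_add (by norm_num), ← Real.rpow_natCast]
    congr 1
    ring
  have hgr : 2 * (C + 11) * (m : ℝ) * G ≤ P := by
    have := hn1 m (by omega)
    rw [pow_one] at this
    exact this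
  have hDQ : (D : ℝ) ≤ Q := by
    refine hD.trans ?_
    apply Real.rpow_le_rpow_of_exponent_le (by norm_num)
    apply mul_le_mul_of_nonneg_right _ hm0
    linarith
  have hE1 : Real.exp (-(c / 2 * Real.sqrt m)) ≤ X / 4 := by
    have e : Real.exp (-(c / 2 * Real.sqrt m)) = X * X := by
      rw [hX, ← Real.exp_add]
      congr 1
      ring
    have hX4 : X ≤ 1 / 4 := by
      rw [le_div_iff₀ (by norm_num)]
      nlinarith
    rw [e]
    nlinarith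
  have hEP : ∀ j : ℕ, 1 ≤ j → j ≤ m → ∀ a : ℕ → ℕ,
      EP j D a ≤ 10 ^ j * (X / 4) + (C + 1) * Q := by
    intro j hj1 hjm a
    have hjR : (j : ℝ) ≤ m := by exact_mod_cast hjm
    have hj0 : (0 : ℝ) ≤ j := Nat.cast_nonneg _
    rcases le_or_gt ((1 - δ) * (m : ℝ)) (j : ℝ) with h | h
    · have hnj : n0 ≤ j := by
        have : (n0 : ℝ) ≤ j := by nlinarith
        exact_mod_cast this
      have hDj : (D : ℝ) ≤ (10 : ℝ) ^ ((1 - δ) * (j : ℝ)) := by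
        refine hD.trans ?_
        apply Real.rpow_le_rpow_of_exponent_le (by norm_num)
        have a1 : (1 - ε) * (m : ℝ) ≤ (1 - 4 * δ) * m :=
          mul_le_mul_of_nonneg_right (by linarith) hm0
        have a2 : (1 - δ) * ((1 - δ) * (m : ℝ)) ≤ (1 - δ) * j :=
          mul_le_mul_of_nonneg_left h (by linarith)
        nlinarith
      refine (hn j hnj D hDj a).trans ?_
      have hs : Real.sqrt m / 2 ≤ Real.sqrt j := by
        have e : Real.sqrt m / 2 = Real.sqrt (m / 4) := by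
          rw [Real.sqrt_div hm0, show (4 : ℝ) = 2 ^ 2 by norm_num, Real.sqrt_sq (by norm_num)]
        rw [e]
        apply Real.sqrt_le_sqrt
        nlinarith
      have he : Real.exp (-(c * Real.sqrt j)) ≤ X / 4 := by
        refine le_trans ?_ hE1
        apply Real.exp_le_exp.mpr
        nlinarith
      have : (0 : ℝ) < 10 ^ j := by positivity
      have h2 : (10 : ℝ) ^ j * Real.exp (-(c * Real.sqrt j)) ≤ 10 ^ j * (X / 4) :=
        mul_le_mul_of_nonneg_left he this.le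
      have h3 : 0 ≤ (C + 1) * Q := by positivity
      linarith
    · refine (hcr' j D a).trans ?_
      have h2 : (10 : ℝ) ^ ((1 + δ / 2) * (j : ℝ)) ≤ Q := by
        apply Real.rpow_le_rpow_of_exponent_le (by norm_num)
        have a1 : (1 + δ / 2) * (j : ℝ) ≤ (1 + δ / 2) * ((1 - δ) * m) :=
          mul_le_mul_of_nonneg_left h.le (by positivity)
        have a2 : 0 ≤ δ ^ 2 * (m : ℝ) := by positivity
        nlinarith
      have h3 : C * (10 : ℝ) ^ ((1 + δ / 2) * (j : ℝ)) ≤ C * Q :=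
        mul_le_mul_of_nonneg_left h2 hC.le
      have h4 : (0 : ℝ) ≤ 10 ^ j * (X / 4) := by positivity
      linarith
  have hS := p4_sum h0 h1 D m (fun j => 10 ^ j * (X / 4) + (C + 1) * Q) hEP m le_rfl b
  refine hS.trans ?_
  rw [Finset.sum_add_distrib, ← Finset.sum_mul, Finset.sum_const, Nat.card_Icc, nsmul_eq_mul]
  have hg := p4_geom m
  have k1 : (∑ j ∈ Icc 1 m, (10 : ℝ) ^ j) * (X / 4) ≤ 2 * 10 ^ m * (X / 4) :=
    mul_le_mul_of_nonneg_right hg (by positivity)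
  have k2 : (((m + 1 - 1 : ℕ) : ℝ)) = m := by rw [Nat.add_sub_cancel]
  rw [k2]
  have k3 : 10 * (D : ℝ) ≤ 10 * m * Q := by nlinarith
  have k4 : (m : ℝ) * ((C + 1) * Q) + 10 * m * Q = (C + 11) * m * Q := by ring
  have k5 : (C + 11) * m * Q ≤ 10 ^ m * X / 2 := by
    have e1 : 2 * (C + 11) * (m : ℝ) * G * (X * Q) ≤ P * (X * Q) :=
      mul_le_mul_of_nonneg_right hgr (by positivity)
    have e2 : 2 * (C + 11) * (m : ℝ) * G * (X * Q) = 2 * ((C + 11) * m * Q) := by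
      calc 2 * (C + 11) * (m : ℝ) * G * (X * Q) = 2 * ((C + 11) * m * Q) * (G * X) := by ring
        _ = _ := by rw [hGX, mul_one]
    have e3 : P * (X * Q) = 10 ^ m * X := by
      calc P * (X * Q) = P * Q * X := by ring
        _ = _ := by rw [hPQ]
    rw [e2, e3] at e1
    linarith
  have k6 : (2 : ℝ) * 10 ^ m * (X / 4) = 10 ^ m * X / 2 := by ring
  linarith

end Pool.Agent.Helper15.SI
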