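import Pool.Agent.Helper15.SI.P7
import Pool.Agent.Helper10.SQ.B1

/-! Project SI, leaf Q1: palindromes with a prefix and a very large square divisor. -/

namespace Pool.Agent.Helper15.SI

open Finset Pool.Agent.Helper10.SQ Pool.Agent.Helper10.P4

theorem q1_pow (p : ℤ) (hp : Prime p) (u b : ℤ) (t : ℕ) (hu : ¬ p ^ 2 ∣ u)
    (h : p ^ (t + 1) ∣ u * b) : p ^ t ∣ b := by
  by_cases h1 : p ∣ u
  · obtain ⟨u', rfl⟩ := h1
    have h2 : ¬ p ∣ u' := by
      rintro ⟨v, hv⟩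
      exact hu ⟨v, by rw [hv]; ring⟩
    have h3 : p ^ t ∣ u' * b := by
      have h' : p * p ^ t ∣ p * (u' * b) := by
        rw [← pow_succ', ← mul_assoc]
        exact h
      exact (mul_dvd_mul_iff_left hp.ne_zero).1 h'
    exact hp.pow_dvd_of_dvd_mul_left t h2 h3
  · exact (pow_dvd_pow p (Nat.le_succ t)).trans (hp.pow_dvd_of_dvd_mul_left (t + 1) h1 h)

theorem q1_flags (t u r r0 : ℕ) (h4 : ¬ 4 ∣ u) (h25 : ¬ 25 ∣ u) (hr2 : ¬ 2 ∣ r)
    (hr5 : ¬ 5 ∣ r) (h02 : ¬ 2 ∣ r0) (h05 : ¬ 5 ∣ r0)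
    (h : (u * r ^ 2) % 10 ^ (t + 2) = (u * r0 ^ 2) % 10 ^ (t + 2)) :
    ((5 : ℤ) ^ (t + 1) ∣ (r : ℤ) - r0 ∨ (5 : ℤ) ^ (t + 1) ∣ (r : ℤ) + r0) ∧
    ((2 : ℤ) ^ t ∣ (r : ℤ) - r0 ∨ (2 : ℤ) ^ t ∣ (r : ℤ) + r0) := by
  have h1 : (10 : ℤ) ^ (t + 2) ∣ (u : ℤ) * (((r : ℤ) - r0) * ((r : ℤ) + r0)) := by
    have h2 : u * r0 ^ 2 ≡ u * r ^ 2 [MOD 10 ^ (t + 2)] := h.symm
    have h3 := (Nat.modEq_iff_dvd).1 h2
    push_cast at h3
    have e : (u : ℤ) * (((r : ℤ) - r0) * ((r : ℤ) + r0)) = (u : ℤ) * r ^ 2 - u * r0 ^ 2 := by ring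
    rw [e]
    exact h3
  have p5 : Prime (5 : ℤ) := by norm_num
  have p2 : Prime (2 : ℤ) := Int.prime_two
  have u25 : ¬ (5 : ℤ) ^ 2 ∣ (u : ℤ) := by
    intro h'
    apply h25
    have : ((25 : ℕ) : ℤ) ∣ (u : ℤ) := by
      norm_num at h' ⊢
      exact h'
    exact Int.natCast_dvd_natCast.1 this
  have u4 : ¬ (2 : ℤ) ^ 2 ∣ (u : ℤ) := by
    intro h'
    apply h4
    have : ((4 : ℕ) : ℤ) ∣ (u : ℤ) := by
      norm_num at h' ⊢
      exact h'
    exact Int.natCast_dvd_natCast.1 this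
  have h5 : (5 : ℤ) ^ (t + 1 + 1) ∣ (u : ℤ) * (((r : ℤ) - r0) * ((r : ℤ) + r0)) := by
    refine dvd_trans ⟨2 ^ (t + 2), ?_⟩ h1
    rw [show (10 : ℤ) = 5 * 2 by norm_num, mul_pow]
  have h2 : (2 : ℤ) ^ (t + 1 + 1) ∣ (u : ℤ) * (((r : ℤ) - r0) * ((r : ℤ) + r0)) := by
    refine dvd_trans ⟨5 ^ (t + 2), ?_⟩ h1
    rw [show (10 : ℤ) = 2 * 5 by norm_num, mul_pow]
  have k5 := q1_pow 5 p5 _ _ (t + 1) u25 h5
  have k2 := q1_pow 2 p2 _ _ (t + 1) u4 h2
  constructor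
  · by_cases hd : (5 : ℤ) ∣ (r : ℤ) - r0
    · left
      have hn : ¬ (5 : ℤ) ∣ (r : ℤ) + r0 := by omega
      exact p5.pow_dvd_of_dvd_mul_right _ hn k5
    · right
      exact p5.pow_dvd_of_dvd_mul_left _ hd k5
  · obtain ⟨a, ha⟩ : (2 : ℤ) ∣ (r : ℤ) - r0 := by omega
    obtain ⟨b, hb⟩ : (2 : ℤ) ∣ (r : ℤ) + r0 := by omega
    by_cases h' : (2 : ℤ) ∣ a
    · left
      have hn : ¬ (2 : ℤ) ∣ b := by omega
      have h3 : (2 : ℤ) * 2 ^ t ∣ 2 * (((r : ℤ) - r0) * b) := by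
        rw [← pow_succ']
        have e : 2 * (((r : ℤ) - r0) * b) = ((r : ℤ) - r0) * ((r : ℤ) + r0) := by rw [hb]; ring
        rw [e]
        exact k2
      exact p2.pow_dvd_of_dvd_mul_right _ hn ((mul_dvd_mul_iff_left (by norm_num)).1 h3)
    · right
      have h3 : (2 : ℤ) * 2 ^ t ∣ 2 * (a * ((r : ℤ) + r0)) := by
        rw [← pow_succ']
        have e : 2 * (a * ((r : ℤ) + r0)) = ((r : ℤ) - r0) * ((r : ℤ) + r0) := by rw [ha]; ring
        rw [e]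
        exact k2
      exact p2.pow_dvd_of_dvd_mul_left _ h' ((mul_dvd_mul_iff_left (by norm_num)).1 h3)

/-- the possible roots -/
def q1R (j k c u : ℕ) : Finset ℕ :=
  (range (10 ^ j)).filter fun r => ¬ 2 ∣ r ∧ ¬ 5 ∣ r ∧ (u * r ^ 2) % 10 ^ k = c

theorem q1_count (j k c u : ℕ) (hk1 : 1 ≤ k) (hkj : k ≤ j) (h4 : ¬ 4 ∣ u) (h25 : ¬ 25 ∣ u) :
    (q1R j k c u).card ≤ 80 * 10 ^ (j - k) := by
  classical
  rcases Nat.lt_or_ge k 2 with h | h
  · have hk : k = 1 := by omega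
    subst hk
    refine (Finset.card_filter_le _ _).trans ?_
    rw [Finset.card_range]
    obtain ⟨i, rfl⟩ : ∃ i, j = i + 1 := ⟨j - 1, by omega⟩
    rw [Nat.add_sub_cancel, pow_succ]
    have : 0 < 10 ^ i := by positivity
    omega
  · obtain ⟨t, rfl⟩ : ∃ t, k = t + 2 := ⟨k - 2, by omega⟩
    rcases Finset.eq_empty_or_nonempty (q1R j (t + 2) c u) with h0 | ⟨r0, hr0⟩
    · rw [h0]
      simp
    have hr0' := hr0
    unfold q1R at hr0'
    rw [Finset.mem_filter] at hr0'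
    obtain ⟨-, h02, h05, h0c⟩ := hr0'
    set m : ℕ := 5 ^ (t + 1) * 2 ^ t with hm
    have hm0 : 0 < m := by positivity
    have hmj : m * (20 * 10 ^ (j - (t + 2))) = 10 ^ j := by
      have e1 : m * 20 = 10 ^ (t + 2) := by
        rw [hm, show (10 : ℕ) = 5 * 2 by norm_num, mul_pow]
        ring
      rw [← mul_assoc, e1, ← pow_add]
      congr 1
      omega
    have hcard : ((Finset.univ : Finset (Bool × Bool)) ×ˢ
        (range (20 * 10 ^ (j - (t + 2))))).card = 80 * 10 ^ (j - (t + 2)) := by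
      rw [Finset.card_product, Finset.card_range, Finset.card_univ]
      simp only [Fintype.card_prod, Fintype.card_bool]
      ring
    rw [← hcard]
    refine Finset.card_le_card_of_injOn (fun r => ((decide ((5 : ℤ) ^ (t + 1) ∣ (r : ℤ) - r0),
      decide ((2 : ℤ) ^ t ∣ (r : ℤ) - r0)), r / m)) ?_ ?_
    · intro r hr
      rw [Finset.mem_coe] at hr
      unfold q1R at hr
      rw [Finset.mem_filter, Finset.mem_range] at hr
      rw [Finset.mem_coe, Finset.mem_product, Finset.mem_range]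
      refine ⟨Finset.mem_univ _, ?_⟩
      show r / m < 20 * 10 ^ (j - (t + 2))
      apply Nat.div_lt_of_lt_mul
      rw [hmj]
      exact hr.1
    · intro r hr r' hr' heq
      rw [Finset.mem_coe] at hr hr'
      unfold q1R at hr hr'
      rw [Finset.mem_filter] at hr hr'
      obtain ⟨-, a2, a5, ac⟩ := hr
      obtain ⟨-, b2, b5, bc⟩ := hr'
      obtain ⟨f5, f2⟩ := q1_flags t u r r0 h4 h25 a2 a5 h02 h05 (ac.trans h0c.symm)
      obtain ⟨g5, g2⟩ := q1_flags t u r' r0 h4 h25 b2 b5 h02 h05 (bc.trans h0c.symm)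
      simp only [Prod.mk.injEq, decide_eq_decide] at heq
      obtain ⟨⟨e5, e2⟩, e3⟩ := heq
      have d5 : (5 : ℤ) ^ (t + 1) ∣ (r : ℤ) - r' := by
        by_cases hh : (5 : ℤ) ^ (t + 1) ∣ (r : ℤ) - r0
        · have := dvd_sub hh (e5.1 hh)
          rwa [sub_sub_sub_cancel_right] at this
        · have hh' : ¬ (5 : ℤ) ^ (t + 1) ∣ (r' : ℤ) - r0 := fun h' => hh (e5.2 h')
          have := dvd_sub (f5.resolve_left hh) (g5.resolve_left hh')
          rwa [add_sub_add_right_eq_sub] at this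
      have d2 : (2 : ℤ) ^ t ∣ (r : ℤ) - r' := by
        by_cases hh : (2 : ℤ) ^ t ∣ (r : ℤ) - r0
        · have := dvd_sub hh (e2.1 hh)
          rwa [sub_sub_sub_cancel_right] at this
        · have hh' : ¬ (2 : ℤ) ^ t ∣ (r' : ℤ) - r0 := fun h' => hh (e2.2 h')
          have := dvd_sub (f2.resolve_left hh) (g2.resolve_left hh')
          rwa [add_sub_add_right_eq_sub] at this
      have hco : IsCoprime ((5 : ℤ) ^ (t + 1)) ((2 : ℤ) ^ t) := by
        apply IsCoprime.pow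
        exact ⟨1, -2, by norm_num⟩
      have dm : (m : ℤ) ∣ (r : ℤ) - r' := by
        rw [hm]
        push_cast
        exact hco.mul_dvd d5 d2
      have hmod : r' ≡ r [MOD m] := (Nat.modEq_iff_dvd).2 dm
      have h6 := Nat.div_add_mod r m
      have h7 := Nat.div_add_mod r' m
      have h8 : r' % m = r % m := hmod
      rw [← h6, ← h7, e3, h8]

open Classical in
theorem sqB1p (n k w e c : ℕ) (he : e ≤ n) (hk1 : 1 ≤ k) (hk : k ≤ n / 2 + 1)
    (hP : ∀ P ∈ PW n k w, P % 10 ^ k = c ∧ ¬ 4 ∣ P ∧ ¬ 25 ∣ P) :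
    ((PW n k w).filter (fun P => ∃ d : ℕ, 10 ^ (n - e) ≤ d ∧ d ^ 2 ∣ P)).card ≤
      10 ^ (2 * e + 1) * (80 * 10 ^ (n / 2 + 1 - k)) := by
  have hex : ∀ P : ℕ, ∃ d : ℕ, (∃ d' : ℕ, 10 ^ (n - e) ≤ d' ∧ d' ^ 2 ∣ P) →
      10 ^ (n - e) ≤ d ∧ d ^ 2 ∣ P := by
    intro P
    by_cases h : ∃ d' : ℕ, 10 ^ (n - e) ≤ d' ∧ d' ^ 2 ∣ P
    · obtain ⟨d, hd⟩ := h
      exact ⟨d, fun _ => hd⟩
    · exact ⟨0, fun h' => absurd h' h⟩
  choose dd hdd using hex
  set U : Finset ℕ := (range (10 ^ (2 * e + 1))).filter fun u => ¬ 4 ∣ u ∧ ¬ 25 ∣ u with hU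
  set T : Finset (Σ _ : ℕ, ℕ) := U.sigma fun u => q1R (n / 2 + 1) k c u with hT
  have hTc : T.card ≤ 10 ^ (2 * e + 1) * (80 * 10 ^ (n / 2 + 1 - k)) := by
    rw [hT, Finset.card_sigma]
    calc ∑ u ∈ U, (q1R (n / 2 + 1) k c u).card ≤ ∑ _u ∈ U, 80 * 10 ^ (n / 2 + 1 - k) := by
          refine Finset.sum_le_sum fun u hu => ?_
          rw [hU, Finset.mem_filter] at hu
          exact q1_count (n / 2 + 1) k c u hk1 hk hu.2.1 hu.2.2
      _ = U.card * (80 * 10 ^ (n / 2 + 1 - k)) := by rw [Finset.sum_const, smul_eq_mul]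
      _ ≤ _ := by
          apply Nat.mul_le_mul_right
          refine (Finset.card_filter_le _ _).trans ?_
          rw [Finset.card_range]
  refine le_trans ?_ hTc
  apply Finset.card_le_card_of_injOn
    (fun P => (⟨P / dd P ^ 2, dd P % 10 ^ (n / 2 + 1)⟩ : Σ _ : ℕ, ℕ))
  · intro P hPm
    rw [Finset.mem_coe, Finset.mem_filter] at hPm
    obtain ⟨hPW, hd⟩ := hPm
    obtain ⟨h1, h2⟩ := hdd P hd
    obtain ⟨q1, q2, q3⟩ := hP P hPW
    have hPal : P ∈ Pal n := by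
      unfold PW at hPW
      exact (Finset.mem_filter.1 hPW).1
    have h3 : P < 10 ^ (2 * n + 1) := by
      unfold Pal at hPal
      rw [Finset.mem_filter, Finset.mem_range] at hPal
      exact hPal.1
    have h4 : 10 ^ (2 * (n - e)) ≤ dd P ^ 2 := by
      calc 10 ^ (2 * (n - e)) = (10 ^ (n - e)) ^ 2 := by rw [← pow_mul, mul_comm]
        _ ≤ dd P ^ 2 := Nat.pow_le_pow_left h1 2
    have h5 : 0 < dd P ^ 2 := lt_of_lt_of_le (by positivity) h4
    have h6 : P / dd P ^ 2 * dd P ^ 2 = P := Nat.div_mul_cancel h2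
    have h7 : P / dd P ^ 2 < 10 ^ (2 * e + 1) := by
      rw [Nat.div_lt_iff_lt_mul h5]
      calc P < 10 ^ (2 * n + 1) := h3
        _ = 10 ^ (2 * e + 1) * 10 ^ (2 * (n - e)) := by
            rw [← pow_add]; congr 1; omega
        _ ≤ 10 ^ (2 * e + 1) * dd P ^ 2 := Nat.mul_le_mul_left _ h4
    have h10 : (10 : ℕ) ∣ 10 ^ (n / 2 + 1) := dvd_pow_self 10 (by omega)
    have hmod10 : dd P % 10 ^ (n / 2 + 1) % 10 = dd P % 10 := Nat.mod_mod_of_dvd _ h10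
    have hd2 : ¬ 2 ∣ dd P := by
      rintro ⟨v, hv⟩
      apply q2
      refine dvd_trans ?_ h2
      exact ⟨v ^ 2, by rw [hv]; ring⟩
    have hd5 : ¬ 5 ∣ dd P := by
      rintro ⟨v, hv⟩
      apply q3
      refine dvd_trans ?_ h2
      exact ⟨v ^ 2, by rw [hv]; ring⟩
    rw [Finset.mem_coe, hT, Finset.mem_sigma]
    refine ⟨?_, ?_⟩
    · show P / dd P ^ 2 ∈ U
      rw [hU, Finset.mem_filter, Finset.mem_range]
      refine ⟨h7, ?_, ?_⟩
      · intro h'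
        exact q2 (h6 ▸ Dvd.dvd.mul_right h' _)
      · intro h'
        exact q3 (h6 ▸ Dvd.dvd.mul_right h' _)
    · show dd P % 10 ^ (n / 2 + 1) ∈ q1R (n / 2 + 1) k c (P / dd P ^ 2)
      unfold q1R
      rw [Finset.mem_filter, Finset.mem_range]
      refine ⟨Nat.mod_lt _ (by positivity), ?_, ?_, ?_⟩
      · omega
      · omega
      · have e1 : dd P % 10 ^ (n / 2 + 1) ≡ dd P [MOD 10 ^ k] :=
          (Nat.mod_modEq _ _).of_dvd (pow_dvd_pow 10 hk)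
        have e2 : P / dd P ^ 2 * (dd P % 10 ^ (n / 2 + 1)) ^ 2 ≡ P / dd P ^ 2 * dd P ^ 2
          [MOD 10 ^ k] := (e1.pow 2).mul_left _
        rw [h6] at e2
        have e3 : (P / dd P ^ 2 * (dd P % 10 ^ (n / 2 + 1)) ^ 2) % 10 ^ k = P % 10 ^ k := e2
        rw [e3]
        exact q1
  · intro P hPm P' hPm' heq
    rw [Finset.mem_coe, Finset.mem_filter] at hPm hPm'
    obtain ⟨hPW, hd⟩ := hPm
    obtain ⟨hPW', hd'⟩ := hPm'
    obtain ⟨-, h2⟩ := hdd P hd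
    obtain ⟨-, h2'⟩ := hdd P' hd'
    unfold PW at hPW hPW'
    have hPal := (Finset.mem_filter.1 hPW).1
    have hPal' := (Finset.mem_filter.1 hPW').1
    unfold Pal at hPal hPal'
    rw [Finset.mem_filter] at hPal hPal'
    simp only [Sigma.mk.injEq, heq_eq_eq] at heq
    obtain ⟨e1, e2⟩ := heq
    have f1 : P = P / dd P ^ 2 * dd P ^ 2 := (Nat.div_mul_cancel h2).symm
    have f2 : P' = P / dd P ^ 2 * dd P' ^ 2 := by
      rw [e1]; exact (Nat.div_mul_cancel h2').symm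
    rcases lt_trichotomy (dd P) (dd P') with hlt | heq | hgt
    · exfalso
      apply B1_aux (n := n) (u := P / dd P ^ 2) (d := dd P') (d' := dd P) _ _ e2.symm hlt
      · rw [← f2]; exact hPal'.2
      · rw [← f1]; exact hPal.2
    · rw [f1, f2, heq]
    · exfalso
      apply B1_aux (n := n) (u := P / dd P ^ 2) (d := dd P) (d' := dd P') _ _ e2 hgt
      · rw [← f1]; exact hPal.2
      · rw [← f2]; exact hPal'.2

end Pool.Agent.Helper15.SI
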